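import Pool.Agent.Q29.CF.Grammar

/-!
# A monoid with context-free word problem whose group of units is not finitely generated

The definition of the word problem language `{u # v^rev : u = v in M}` and of
`HasContextFreeWordProblem` is in `Pool.Agent.Q29.CF.Monoid`.  The monoid is
`Mon⟨a, b, c | (b aⁿ c)² = 1 (n ≥ 0)⟩`.
-/

namespace Pool.Agent.Results.MP_435286_al.InfinitelyGeneratedUnits

open Q29.CF

/-- There is a (finitely generated) monoid with context-free word problem whose group of units is
not finitely generated. -/
theorem result : ∃ (M : Type) (_ : Monoid M), HasContextFreeWordProblem M ∧ ¬ Group.FG Mˣ :=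
  ⟨MM, inferInstance, hasContextFreeWordProblem, not_fg_units⟩

end Pool.Agent.Results.MP_435286_al.InfinitelyGeneratedUnits
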